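import Mathlib

/-!
# Twists of the `L`-functions of motives by Hecke characters: definitions

`K` is a number field, the primes of `K` are the elements of `HeightOneSpectrum (𝓞 K)`, and `Nv` is the
absolute norm of a prime `v`.
-/

set_option autoImplicit false

namespace Pool.Agent.HS37.HT

open NumberField IsDedekindDomain Filter Topology Polynomial

section
variable {K : Type} [Field K] [NumberField K]

/-- The cohomology `H = H^w(M)` of a motive `M` over the number field `K` in one degree, as far as the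
Frobenius eigenvalues at almost all primes are concerned: `frob v` is the multiset of the eigenvalues of
the geometric Frobenius at `v`, it has `rank` elements, they have absolute value `Nv^{w/2}`,
`w = weight`, and their sum is real.  By the theorem of Deligne every Chow motive `M = (X, p, r)` over
`K` and every integer `w` give such data, for every choice of the auxiliary primes `ℓ_v`: `rank` is the
dimension of `H^w(M)`, almost all `v` are primes of good reduction of `X`, and there the
characteristic polynomial of Frobenius is rational, by Katz and Messing. -/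
structure Motive (K : Type) [Field K] [NumberField K] where
  weight : ℤ
  rank : ℕ
  frob : HeightOneSpectrum (𝓞 K) → Multiset ℂ
  pure : ∀ᶠ v in cofinite, Multiset.card (frob v) = rank ∧
    (∀ α ∈ frob v, ‖α‖ = (Ideal.absNorm v.asIdeal : ℝ) ^ ((weight : ℝ) / 2)) ∧ (frob v).sum.im = 0

/-- `χ` is (the restriction to the primes of) a unitary Hecke character of type (A) of `K`, times a
power of the norm: there are a multiplicative function `ψ` on the ideals, a modulus `𝔪`, with `ψ(𝔞)`
different from `0` if and only if `𝔞` is prime to `𝔪`, integers `k_φ` for the complex embeddings `φ` of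
`K` such that `ψ((x)) = ∏_φ (φ(x) / |φ(x)|)^{k_φ}` for all totally positive integers `x ≡ 1 mod 𝔪`, and
a real number `t`, such that `χ(v) = ψ(v) Nv^{-it}`.  (If `Ψ` is an algebraic Hecke character, of type
(A₀), of weight `a`, then `Ψ(𝔞) N𝔞^{-a/2}` is of this form.  The characters of finite order are those
of the ray class groups.) -/
def IsHecke (χ : HeightOneSpectrum (𝓞 K) → ℂ) : Prop :=
  ∃ (ψ : Ideal (𝓞 K) →*₀ ℂ) (𝔪 : Ideal (𝓞 K)) (k : (K →+* ℂ) → ℤ) (t : ℝ), 𝔪 ≠ ⊥ ∧
    (∀ 𝔞 : Ideal (𝓞 K), 𝔞 ≠ ⊥ → (ψ 𝔞 ≠ 0 ↔ IsCoprime 𝔞 𝔪)) ∧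
    (∀ x : 𝓞 K, x ≠ 0 → x - 1 ∈ 𝔪 → (∀ σ : K →+* ℝ, 0 < σ (x : K)) →
      ψ (Ideal.span {x}) = ∏ φ : K →+* ℂ, (φ (x : K) / (‖φ (x : K)‖ : ℂ)) ^ k φ) ∧
    ∀ v, χ v = ψ v.asIdeal * (Ideal.absNorm v.asIdeal : ℂ) ^ (-(t * Complex.I))

/-- The two characters agree at almost all primes: they come from the same primitive character. -/
def Equivalent (χ χ' : HeightOneSpectrum (𝓞 K) → ℂ) : Prop := ∀ᶠ v in cofinite, χ v = χ' v

/-- `χ` is of infinite order (for example if its type is not trivial at some complex place, or if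
`t ≠ 0`). -/
def InfiniteOrder (χ : HeightOneSpectrum (𝓞 K) → ℂ) : Prop :=
  ∀ n : ℕ, 0 < n → ¬ Equivalent (fun v => χ v ^ n) fun _ => 1

/-- The point `w/2 + 1` of the edge `Re s = w/2 + 1` of the half plane of absolute convergence. -/
noncomputable def edge (H : Motive K) : ℂ := (H.weight : ℂ) / 2 + 1

/-- The polynomials `B v` are the Euler factors of `L(H ⊗ χ, s)`: `B_v(z) = ∏ (1 - α χ(v) z)`, the
product over the eigenvalues `α` of Frobenius at `v`, for almost all `v`.  At the other primes `B v` is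
an arbitrary polynomial, and no factor `1 / B_v(Nv^{-s})` has a pole at `s = w/2 + 1`. -/
def IsEuler (H : Motive K) (χ : HeightOneSpectrum (𝓞 K) → ℂ)
    (B : HeightOneSpectrum (𝓞 K) → ℂ[X]) : Prop :=
  (∀ᶠ v in cofinite, ∀ z : ℂ, (B v).eval z = ((H.frob v).map fun α => 1 - α * χ v * z).prod) ∧
  ∀ v, (B v).eval ((Ideal.absNorm v.asIdeal : ℂ) ^ (-(edge H))) ≠ 0

/-- The Euler product `∏_v B_v(Nv^{-s})⁻¹`. -/
noncomputable def LFun (B : HeightOneSpectrum (𝓞 K) → ℂ[X]) (s : ℂ) : ℂ :=
  ∏' v : HeightOneSpectrum (𝓞 K), ((B v).eval ((Ideal.absNorm v.asIdeal : ℂ) ^ (-s)))⁻¹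

/-- `log |L(w/2 + 1 + ε)| / log(1/ε)`; for a function with a meromorphic continuation of order `m` at
`w/2 + 1` it tends to `-m` as `ε → 0+`. -/
noncomputable def size (H : Motive K) (B : HeightOneSpectrum (𝓞 K) → ℂ[X]) (ε : ℝ) : ℝ :=
  Real.log ‖LFun B (edge H + ε)‖ / Real.log (1 / ε)

/-- `L(H ⊗ χ, s)` has a meromorphic continuation to a neighbourhood of `w/2 + 1`, of order `m` at
`w/2 + 1` (positive for a zero, negative for a pole). -/
def HasOrder (H : Motive K) (χ : HeightOneSpectrum (𝓞 K) → ℂ) (m : ℤ) : Prop :=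
  ∃ (B : HeightOneSpectrum (𝓞 K) → ℂ[X]) (Λ : ℂ → ℂ), IsEuler H χ B ∧
    MeromorphicAt Λ (edge H) ∧
    (∀ᶠ s in 𝓝 (edge H), (edge H).re < s.re → Λ s = LFun B s) ∧
    meromorphicOrderAt Λ (edge H) = m

end

end Pool.Agent.HS37.HT
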