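import Pool.Agent.HS37.HT.Defs
import Pool.Agent.HS37.HK.Main

/-!
# Twists of the `L`-functions of motives by Hecke characters
-/

set_option autoImplicit false
set_option linter.unusedSectionVars false

open NumberField Complex Filter Topology ComplexConjugate IsDedekindDomain Polynomial

namespace Pool.Agent.HS37.HT

open Pool.Agent.H341R2 Pool.Agent.W540.BE Pool.Agent.HS37.HK

section

variable {K : Type} [Field K] [NumberField K]

/-- from ultrafilters to the limit superior -/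
theorem ev_of_ultra {f : ℝ → ℝ} {b : ℝ}
    (h : ∀ 𝒰 : Ultrafilter ℝ, (𝒰 : Filter ℝ) ≤ 𝓝[>] 0 → ∃ y, Tendsto f 𝒰 (𝓝 y) ∧ y ≤ b)
    {η : ℝ} (hη : 0 < η) : ∀ᶠ ε : ℝ in 𝓝[>] 0, f ε ≤ b + η := by
  by_contra hcon
  have hcon' : ∃ᶠ ε : ℝ in 𝓝[>] 0, ¬ f ε ≤ b + η := Filter.not_eventually.1 hcon
  have : (𝓝[>] (0 : ℝ) ⊓ 𝓟 {ε : ℝ | ¬ f ε ≤ b + η}).NeBot := Filter.frequently_iff_neBot.1 hcon'
  set 𝒰 := Ultrafilter.of (𝓝[>] (0 : ℝ) ⊓ 𝓟 {ε : ℝ | ¬ f ε ≤ b + η}) with h𝒰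
  have h1 : (𝒰 : Filter ℝ) ≤ 𝓝[>] 0 := (Ultrafilter.of_le _).trans inf_le_left
  have h2 : ∀ᶠ ε : ℝ in (𝒰 : Filter ℝ), ¬ f ε ≤ b + η := by
    have h3 : (𝒰 : Filter ℝ) ≤ 𝓟 {ε : ℝ | ¬ f ε ≤ b + η} :=
      (Ultrafilter.of_le _).trans inf_le_right
    exact h3 (mem_principal_self _)
  obtain ⟨y, hy, hyb⟩ := h 𝒰 h1
  have h3 : b + η ≤ y := ge_of_tendsto hy (h2.mono fun ε hε => (not_le.1 hε).le)
  linarith

/-! ## the trace -/

/-- the normalised trace of Frobenius -/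
noncomputable def Good (H : Motive K) (v : HeightOneSpectrum (𝓞 K)) : Prop :=
  Multiset.card (H.frob v) = H.rank ∧
    (∀ α ∈ H.frob v, ‖α‖ = (Ideal.absNorm v.asIdeal : ℝ) ^ ((H.weight : ℝ) / 2)) ∧
    (H.frob v).sum.im = 0

open Classical in
/-- the normalised trace of Frobenius -/
noncomputable def Tr (H : Motive K) (v : HeightOneSpectrum (𝓞 K)) : ℝ :=
  if Good H v then (H.frob v).sum.re * (nm v : ℝ) ^ (-((H.weight : ℝ) / 2)) else 0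

theorem Tr_eq (H : Motive K) {v : HeightOneSpectrum (𝓞 K)} (h : Good H v) :
    (Tr H v : ℂ) = (H.frob v).sum * (nm v : ℂ) ^ (-(((H.weight : ℝ) / 2 : ℝ) : ℂ)) := by
  classical
  have h1 : ((H.frob v).sum.re : ℂ) = (H.frob v).sum := Complex.ext rfl (by
    rw [Complex.ofReal_im, h.2.2])
  have h2 : (((nm v : ℝ) ^ (-((H.weight : ℝ) / 2)) : ℝ) : ℂ) =
      (nm v : ℂ) ^ (-(((H.weight : ℝ) / 2 : ℝ) : ℂ)) := by
    rw [Complex.ofReal_cpow (Nat.cast_nonneg _), Complex.ofReal_natCast, Complex.ofReal_neg]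
  unfold Tr
  rw [if_pos h, Complex.ofReal_mul, h1, h2]

theorem Tr_le (H : Motive K) (v : HeightOneSpectrum (𝓞 K)) : |Tr H v| ≤ H.rank := by
  classical
  by_cases h : Good H v
  · have h1 := nrm_le (w := (H.weight : ℝ) / 2) (v := v) (s := H.frob v)
      (fun α hα => (h.2.1 α hα).le)
    have h2 := HK.norm_sum_le h1
    rw [nrm_sum, ← Tr_eq H h, nrm_card, h.1, Complex.norm_real, Real.norm_eq_abs] at h2
    exact h2
  · unfold Tr
    rw [if_neg h, abs_zero]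
    exact Nat.cast_nonneg _

theorem isHecke_hk {χ : HeightOneSpectrum (𝓞 K) → ℂ} (h : IsHecke χ) :
    ∃ χ' : HeightOneSpectrum (𝓞 K) → ℂ, Hk χ' ∧ AE χ' χ := by
  obtain ⟨ψ, 𝔪, k, t, h1, h2, h3, h4⟩ := h
  obtain ⟨χ', h5, h6⟩ := Hk.of_HC (𝔪 := 𝔪) (k := k) (ψ := ψ) ⟨h1, h2, h3⟩ t
  refine ⟨χ', h5, ?_⟩
  filter_upwards [h6] with v hv
  rw [hv, h4]
  rfl

/-- every function that agrees almost everywhere with a Hecke character is equivalent to one -/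
theorem hk_isHecke {χ : HeightOneSpectrum (𝓞 K) → ℂ} (h : Hk χ) :
    ∃ χ' : HeightOneSpectrum (𝓞 K) → ℂ, IsHecke χ' ∧ AE χ' χ := by
  obtain ⟨-, 𝔪, k, ψ, τ, h1, -, h2⟩ := h
  exact ⟨val ψ τ, ⟨ψ, 𝔪, k, τ, h1.ne_bot, h1.supp, h1.ray, fun _ => rfl⟩, AE.symm h2⟩

theorem euler_ef (H : Motive K) {χ χ' : HeightOneSpectrum (𝓞 K) → ℂ} (h' : Hk χ')
    (hae : AE χ' χ) {B : HeightOneSpectrum (𝓞 K) → ℂ[X]} (hB : IsEuler H χ B) :
    EF ((H.weight : ℝ) / 2) H.rank (fun v => (H.frob v).map fun α => α * χ v) B := by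
  refine ⟨?_, fun v => ?_⟩
  · filter_upwards [H.pure, hB.1, hae] with v h1 h2 h3
    refine ⟨fun β hβ => ?_, ?_, fun z => ?_⟩
    · obtain ⟨α, hα, rfl⟩ := Multiset.mem_map.1 hβ
      rw [norm_mul, h1.2.1 α hα, ← h3, h'.1, mul_one]
      exact le_rfl
    · rw [Multiset.card_map, h1.1]
    · rw [h2 z, Multiset.map_map]
      rfl
  · have h1 := hB.2 v
    have h2 : (-((((H.weight : ℝ) / 2 : ℝ) : ℂ) + 1)) = -(edge H) := by
      unfold edge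
      push_cast
      ring
    rw [h2]
    exact h1

theorem edge_eq (H : Motive K) : (((H.weight : ℝ) / 2 : ℝ) : ℂ) + 1 = edge H := by
  unfold edge
  push_cast
  ring

theorem coef_ae (H : Motive K) {χ χ' : HeightOneSpectrum (𝓞 K) → ℂ} (hae : AE χ' χ) :
    ∀ᶠ v in cofinite, (Tr H v : ℂ) * χ' v = ((H.frob v).map fun α => α * χ v).sum *
      (nm v : ℂ) ^ (-(((H.weight : ℝ) / 2 : ℝ) : ℂ)) := by
  filter_upwards [H.pure, hae] with v h1 h2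
  rw [Tr_eq H h1, h2, Multiset.sum_map_mul_right, Multiset.map_id']
  ring

theorem coef_bd (H : Motive K) {χ' : HeightOneSpectrum (𝓞 K) → ℂ} (h' : Hk χ')
    (v : HeightOneSpectrum (𝓞 K)) : ‖(Tr H v : ℂ) * χ' v‖ ≤ H.rank := by
  rw [norm_mul, h'.1, mul_one, Complex.norm_real]
  exact Tr_le H v

theorem LFun_eq (B : HeightOneSpectrum (𝓞 K) → ℂ[X]) (s : ℂ) : LFun B s = LF B s := rfl

/-- the nonvanishing -/
theorem ne_zero (H : Motive K) {χ χ' : HeightOneSpectrum (𝓞 K) → ℂ} (h' : Hk χ')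
    (hae : AE χ' χ) {B : HeightOneSpectrum (𝓞 K) → ℂ[X]} (hB : IsEuler H χ B) :
    ∀ᶠ ε : ℝ in 𝓝[>] 0, LFun B (edge H + ε) ≠ 0 := by
  obtain ⟨⟨C, hC⟩, -⟩ := ef_data (euler_ef H h' hae hB) (coef_bd H h') (coef_ae H hae)
  filter_upwards [hC] with ε h1
  rw [edge_eq] at h1
  exact h1.1

/-- the size along an ultrafilter -/
theorem size_lim (H : Motive K) {χ χ' : HeightOneSpectrum (𝓞 K) → ℂ} (h' : Hk χ')
    (hae : AE χ' χ) {B : HeightOneSpectrum (𝓞 K) → ℂ[X]} (hB : IsEuler H χ B)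
    {𝒰 : Ultrafilter ℝ} (hU : (𝒰 : Filter ℝ) ≤ 𝓝[>] 0) {x : ℝ}
    (hx : Av nm 𝒰 (fun v => ((Tr H v : ℂ) * χ' v).re) x) :
    Tendsto (size H B) 𝒰 (𝓝 x) := by
  obtain ⟨⟨C, hC⟩, -⟩ := ef_data (euler_ef H h' hae hB) (coef_bd H h') (coef_ae H hae)
  have hy : ∀ᶠ ε : ℝ in 𝓝[>] 0, |EP (nm (K := K)) ε fun v => ((Tr H v : ℂ) * χ' v).re| ≤
      (2 * H.rank) * lam ε := by
    have h2 : ∀ᶠ ε : ℝ in 𝓝[>] 0, (EP (nm (K := K)) ε fun _ => 1) / lam ε < 2 :=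
      EP_one.eventually_lt_const (by norm_num : (1 : ℝ) < 2)
    filter_upwards [h2, lam_tendsto.eventually_gt_atTop 0, self_mem_nhdsWithin] with ε h3 h4 h5
    have hε : (0 : ℝ) < ε := h5
    rw [div_lt_iff₀ h4] at h3
    have hb : ∀ v : HeightOneSpectrum (𝓞 K), |((Tr H v : ℂ) * χ' v).re| ≤ H.rank := fun v =>
      (Complex.abs_re_le_norm _).trans (coef_bd H h' v)
    have e1 := EP_le (N := nm (K := K)) nsys hε hb (b := H.rank)
      fun v => (le_abs_self _).trans (hb v)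
    have e2 := EP_le (N := nm (K := K)) nsys hε (φ := fun v => (-1) * ((Tr H v : ℂ) * χ' v).re)
      (B := H.rank) (fun v => by rw [abs_mul, abs_neg, abs_one, one_mul]; exact hb v)
      (b := H.rank) fun v => by
        have := neg_abs_le (((Tr H v : ℂ) * χ' v).re)
        have := hb v
        linarith
    rw [EP_const_mul] at e2
    have e3 : (H.rank : ℝ) * (EP (nm (K := K)) ε fun _ => 1) ≤ (2 * H.rank) * lam ε := by
      calc _ ≤ (H.rank : ℝ) * (2 * lam ε) :=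
            mul_le_mul_of_nonneg_left h3.le (Nat.cast_nonneg _)
        _ = _ := by ring
    rw [abs_le]
    constructor <;> linarith
  have h1 := size_compare (y := fun ε => EP (nm (K := K)) ε fun v => ((Tr H v : ℂ) * χ' v).re)
    (ℓ := fun ε => Real.log ‖LF B ((((H.weight : ℝ) / 2 : ℝ) : ℂ) + 1 + ε)‖) hy
    (hC.mono fun ε h => h.2)
  have h2 := (h1.mono_left hU)
  have h3 := Tendsto.sub hx h2
  rw [sub_zero] at h3
  refine h3.congr fun ε => ?_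
  unfold size
  rw [LFun_eq, ← edge_eq]
  ring

/-- a limit exists -/
theorem exists_lim (H : Motive K) {χ' : HeightOneSpectrum (𝓞 K) → ℂ} (h' : Hk χ')
    {𝒰 : Ultrafilter ℝ} (hU : (𝒰 : Filter ℝ) ≤ 𝓝[>] 0) :
    ∃ x, Av nm 𝒰 (fun v => ((Tr H v : ℂ) * χ' v).re) x :=
  (sysK (K := K) hU).exists (BdC.re ⟨_, coef_bd H h'⟩)

/-- the mean value is minus the order -/
theorem order_mean (H : Motive K) {χ χ' : HeightOneSpectrum (𝓞 K) → ℂ} (h' : Hk χ')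
    (hae : AE χ' χ) {m : ℤ} (hm : HasOrder H χ m) {𝒰 : Ultrafilter ℝ}
    (hU : (𝒰 : Filter ℝ) ≤ 𝓝[>] 0) : AvC nm 𝒰 (fun v => (Tr H v : ℂ) * χ' v) (-m) := by
  obtain ⟨B, Λ, hB, hΛ, hL, hord⟩ := hm
  obtain ⟨-, h1⟩ := ef_data (euler_ef H h' hae hB) (coef_bd H h') (coef_ae H hae)
  rw [← edge_eq] at hΛ hL hord
  refine h1 (sysK hU) hΛ hord ?_
  have h2 : Tendsto (fun ε : ℝ => (((H.weight : ℝ) / 2 : ℝ) : ℂ) + 1 + ε) (𝓝[>] 0)
      (𝓝 ((((H.weight : ℝ) / 2 : ℝ) : ℂ) + 1)) := path_tendsto' _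
  filter_upwards [h2.eventually hL, self_mem_nhdsWithin] with ε h3 h4
  have hε : (0 : ℝ) < ε := h4
  refine h3 ?_
  simp only [Complex.add_re, Complex.ofReal_re, Complex.one_re]
  linarith

/-! ## the sizes -/

theorem sizes (H : Motive K) (κ : Type) [Fintype κ] (χ : κ → HeightOneSpectrum (𝓞 K) → ℂ)
    (B : κ → HeightOneSpectrum (𝓞 K) → ℂ[X]) (hχ : ∀ k, IsHecke (χ k))
    (hne : ∀ k l, k ≠ l → ¬ Equivalent (χ k) (χ l)) (hB : ∀ k, IsEuler H (χ k) (B k))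
    {η : ℝ} (hη : 0 < η) : ∀ᶠ ε : ℝ in 𝓝[>] 0, (∀ k, LFun (B k) (edge H + ε) ≠ 0) ∧
      ∑ k, size H (B k) ε ^ 2 ≤ (H.rank : ℝ) ^ 2 + η := by
  choose χ' h' hae using fun k => isHecke_hk (hχ k)
  have hne' : ∀ k l, k ≠ l → ¬ AE (χ' k) (χ' l) := fun k l hkl h =>
    hne k l hkl (((hae k).symm.trans h).trans (hae l))
  refine Filter.Eventually.and ?_ (ev_of_ultra (fun 𝒰 hU => ?_) hη)
  · rw [Filter.eventually_all]
    exact fun k => ne_zero H (h' k) (hae k) (hB k)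
  · choose x hx using fun k => exists_lim H (h' k) hU
    refine ⟨∑ k, x k ^ 2, tendsto_finsetSum _ fun k _ =>
      (size_lim H (h' k) (hae k) (hB k) hU (hx k)).pow 2, ?_⟩
    exact besselK (sysK hU) Finset.univ (T := fun v => (Tr H v : ℂ)) (Nat.cast_nonneg _)
      (fun v => by rw [Complex.norm_real]; exact Tr_le H v) (fun k _ => h' k)
      (fun k _ l _ hkl => hne' k l hkl) fun k _ => hx k

theorem inford (χ χ' : HeightOneSpectrum (𝓞 K) → ℂ) (hae : AE χ' χ) (hi : InfiniteOrder χ) :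
    Inford χ' := by
  intro n hn h
  refine hi n hn ?_
  have h1 : ∀ᶠ v in cofinite, χ v ^ n = 1 := by
    filter_upwards [h, hae] with v h1 h2
    rw [← h2, h1]
  exact h1

theorem size_one (H : Motive K) {χ : HeightOneSpectrum (𝓞 K) → ℂ}
    {B : HeightOneSpectrum (𝓞 K) → ℂ[X]} (hχ : IsHecke χ) (hi : InfiniteOrder χ)
    (hB : IsEuler H χ B) {η : ℝ} (hη : 0 < η) :
    ∀ᶠ ε : ℝ in 𝓝[>] 0, |size H B ε| ≤ 2 * H.rank / Real.pi + η := by
  obtain ⟨χ', h', hae⟩ := isHecke_hk hχ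
  refine ev_of_ultra (fun 𝒰 hU => ?_) hη
  obtain ⟨x, hx⟩ := exists_lim H h' hU
  exact ⟨|x|, (size_lim H h' hae hB hU hx).abs, firstK (sysK hU) (Nat.cast_nonneg _) (Tr_le H) h'
    (inford χ χ' hae hi) hx⟩

theorem size_two (H : Motive K) {χ₁ χ₂ : HeightOneSpectrum (𝓞 K) → ℂ}
    {B₁ B₂ : HeightOneSpectrum (𝓞 K) → ℂ[X]} (hχ₁ : IsHecke χ₁) (hi₁ : InfiniteOrder χ₁)
    (hB₁ : IsEuler H χ₁ B₁) (hχ₂ : IsHecke χ₂) (hi₂ : InfiniteOrder χ₂) (hB₂ : IsEuler H χ₂ B₂)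
    (hne : ¬ Equivalent χ₁ χ₂) (hnc : ¬ Equivalent χ₁ fun v => conj (χ₂ v))
    {η : ℝ} (hη : 0 < η) :
    ∀ᶠ ε : ℝ in 𝓝[>] 0, |size H B₁ ε| + |size H B₂ ε| ≤ 35 / 36 * H.rank + η := by
  obtain ⟨χ₁', h₁', hae₁⟩ := isHecke_hk hχ₁
  obtain ⟨χ₂', h₂', hae₂⟩ := isHecke_hk hχ₂
  refine ev_of_ultra (fun 𝒰 hU => ?_) hη
  obtain ⟨x, hx⟩ := exists_lim H h₁' hU
  obtain ⟨y, hy⟩ := exists_lim H h₂' hU
  refine ⟨|x| + |y|, (size_lim H h₁' hae₁ hB₁ hU hx).abs.add (size_lim H h₂' hae₂ hB₂ hU hy).abs,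
    pairK (sysK hU) (Nat.cast_nonneg _) (Tr_le H) h₁' h₂' (inford _ _ hae₁ hi₁)
      (inford _ _ hae₂ hi₂) (fun h => hne ((hae₁.symm.trans h).trans hae₂)) (fun h => hnc ?_)
      hx hy⟩
  filter_upwards [hae₁, h, hae₂] with v k1 k2 k3
  rw [← k1, k2, k3]

/-! ## the orders -/

theorem exists_U : ∃ 𝒰 : Ultrafilter ℝ, (𝒰 : Filter ℝ) ≤ 𝓝[>] 0 :=
  ⟨Ultrafilter.of _, Ultrafilter.of_le _⟩

theorem orders (H : Motive K) {κ : Type*} (S : Finset κ) (χ : κ → HeightOneSpectrum (𝓞 K) → ℂ)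
    (m : κ → ℤ) (hχ : ∀ k ∈ S, IsHecke (χ k))
    (hne : ∀ k ∈ S, ∀ l ∈ S, k ≠ l → ¬ Equivalent (χ k) (χ l))
    (hm : ∀ k ∈ S, HasOrder H (χ k) (m k)) : ∑ k ∈ S, m k ^ 2 ≤ (H.rank : ℤ) ^ 2 := by
  obtain ⟨𝒰, hU⟩ := exists_U
  have hex : ∀ k, ∃ χ' : HeightOneSpectrum (𝓞 K) → ℂ, k ∈ S → Hk χ' ∧ AE χ' (χ k) := by
    intro k
    by_cases hk : k ∈ S
    · obtain ⟨χ', h1, h2⟩ := isHecke_hk (hχ k hk)
      exact ⟨χ', fun _ => ⟨h1, h2⟩⟩
    · exact ⟨fun _ => 1, fun h => absurd h hk⟩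
  choose χ' hχ' using hex
  have h1 := besselK (sysK hU) S (T := fun v => (Tr H v : ℂ)) (Nat.cast_nonneg H.rank)
    (fun v => by rw [Complex.norm_real]; exact Tr_le H v) (χ := χ') (fun k hk => (hχ' k hk).1)
    (fun k hk l hl hkl h => hne k hk l hl hkl
      (((hχ' k hk).2.symm.trans h).trans (hχ' l hl).2)) (x := fun k => -(m k : ℝ)) fun k hk => by
        have h2 := (order_mean H (hχ' k hk).1 (hχ' k hk).2 (hm k hk) hU).1
        exact h2.congr (fun _ => rfl) (by simp)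
  have h2 : ∑ k ∈ S, (-(m k : ℝ)) ^ 2 = ((∑ k ∈ S, m k ^ 2 : ℤ) : ℝ) := by
    push_cast
    exact Finset.sum_congr rfl fun k _ => by ring
  rw [h2] at h1
  exact_mod_cast h1

theorem order_one (H : Motive K) {χ : HeightOneSpectrum (𝓞 K) → ℂ} {m : ℤ} (hχ : IsHecke χ)
    (hi : InfiniteOrder χ) (hm : HasOrder H χ m) : |(m : ℝ)| ≤ 2 * H.rank / Real.pi := by
  obtain ⟨𝒰, hU⟩ := exists_U
  obtain ⟨χ', h', hae⟩ := isHecke_hk hχ
  have h1 := firstK (sysK hU) (Nat.cast_nonneg _) (Tr_le H) h' (inford χ χ' hae hi)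
    ((order_mean H h' hae hm hU).1.congr (fun _ => rfl) (by simp : (-(m : ℂ)).re = -(m : ℝ)))
  rwa [abs_neg] at h1

theorem order_two (H : Motive K) {χ₁ χ₂ : HeightOneSpectrum (𝓞 K) → ℂ} {m₁ m₂ : ℤ}
    (hχ₁ : IsHecke χ₁) (hi₁ : InfiniteOrder χ₁) (hm₁ : HasOrder H χ₁ m₁)
    (hχ₂ : IsHecke χ₂) (hi₂ : InfiniteOrder χ₂) (hm₂ : HasOrder H χ₂ m₂)
    (hne : ¬ Equivalent χ₁ χ₂) (hnc : ¬ Equivalent χ₁ fun v => conj (χ₂ v)) :
    |(m₁ : ℝ)| + |(m₂ : ℝ)| ≤ 35 / 36 * H.rank := by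
  obtain ⟨𝒰, hU⟩ := exists_U
  obtain ⟨χ₁', h₁', hae₁⟩ := isHecke_hk hχ₁
  obtain ⟨χ₂', h₂', hae₂⟩ := isHecke_hk hχ₂
  have h1 := pairK (sysK hU) (Nat.cast_nonneg _) (Tr_le H) h₁' h₂' (inford _ _ hae₁ hi₁)
      (inford _ _ hae₂ hi₂) (fun h => hne ((hae₁.symm.trans h).trans hae₂)) (fun h => hnc (by
        filter_upwards [hae₁, h, hae₂] with v k1 k2 k3
        rw [← k1, k2, k3]))
      ((order_mean H h₁' hae₁ hm₁ hU).1.congr (fun _ => rfl) (by simp : (-(m₁ : ℂ)).re = -(m₁ : ℝ)))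
      ((order_mean H h₂' hae₂ hm₂ hU).1.congr (fun _ => rfl) (by simp : (-(m₂ : ℂ)).re = -(m₂ : ℝ)))
  rwa [abs_neg, abs_neg] at h1

/-- **all orders at once** -/
theorem orders_all (H : Motive K) (m : (HeightOneSpectrum (𝓞 K) → ℂ) → ℤ)
    (hm : ∀ χ, IsHecke χ → HasOrder H χ (m χ)) :
    ∃ (n : ℕ) (χ : Fin n → HeightOneSpectrum (𝓞 K) → ℂ), n ≤ H.rank ^ 2 ∧
      (∀ k, IsHecke (χ k) ∧ m (χ k) ≠ 0) ∧ (∀ k l, k ≠ l → ¬ Equivalent (χ k) (χ l)) ∧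
      (∀ χ', IsHecke χ' → m χ' ≠ 0 → ∃ k, Equivalent χ' (χ k)) ∧
      ∑ k, m (χ k) ^ 2 ≤ (H.rank : ℤ) ^ 2 ∧ |∑ k, m (χ k)| ≤ H.rank ∧
      ∀ᶠ v in cofinite, ‖∑ k, (m (χ k) : ℂ) * χ k v‖ ≤ H.rank := by
  classical
  -- the families of inequivalent exceptional characters
  set Fam : ℕ → Prop := fun n => ∃ χ : Fin n → HeightOneSpectrum (𝓞 K) → ℂ,
    (∀ k, IsHecke (χ k) ∧ m (χ k) ≠ 0) ∧ ∀ k l, k ≠ l → ¬ Equivalent (χ k) (χ l) with hFam
  have hbound : ∀ n, Fam n → n ≤ H.rank ^ 2 := by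
    rintro n ⟨χ, h1, h2⟩
    have h3 := orders H Finset.univ χ (fun k => m (χ k)) (fun k _ => (h1 k).1)
      (fun k _ l _ hkl => h2 k l hkl) fun k _ => hm _ (h1 k).1
    have h4 : ∑ k : Fin n, (1 : ℤ) ≤ ∑ k, m (χ k) ^ 2 := Finset.sum_le_sum fun k _ => by
      have := (h1 k).2
      have h5 : 0 < m (χ k) ^ 2 := by positivity
      omega
    rw [Finset.sum_const, Finset.card_univ, Fintype.card_fin, nsmul_eq_mul, mul_one] at h4
    exact_mod_cast h4.trans h3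
  have h0 : Fam 0 := ⟨fun k => k.elim0, fun k => k.elim0, fun k => k.elim0⟩
  obtain ⟨n, hn, hmax⟩ : ∃ n, Fam n ∧ ∀ n', Fam n' → n' ≤ n := by
    have hfin : {n | Fam n}.Finite := (Set.finite_Iic (H.rank ^ 2)).subset fun n hn => hbound n hn
    obtain ⟨n, hn, hmax⟩ := Set.exists_max_image _ id hfin ⟨0, h0⟩
    exact ⟨n, hn, fun n' hn' => hmax n' hn'⟩
  obtain ⟨χ, h1, h2⟩ := hn
  have h3 : ∀ χ', IsHecke χ' → m χ' ≠ 0 → ∃ k, Equivalent χ' (χ k) := by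
    intro χ' hχ' hne
    by_contra hcon
    push Not at hcon
    have h4 : Fam (n + 1) := by
      refine ⟨Fin.cons χ' χ, fun k => ?_, fun k l hkl => ?_⟩
      · refine Fin.cases ?_ (fun k => ?_) k
        · exact ⟨hχ', hne⟩
        · exact h1 k
      · induction k using Fin.cases with
        | zero =>
          induction l using Fin.cases with
          | zero => exact absurd rfl hkl
          | succ l => exact hcon l
        | succ k =>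
          induction l using Fin.cases with
          | zero => exact fun h => hcon k (AE.symm h)
          | succ l => exact h2 k l fun h => hkl (by rw [h])
    have := hmax _ h4
    omega
  have hord := orders H Finset.univ χ (fun k => m (χ k)) (fun k _ => (h1 k).1)
    (fun k _ l _ hkl => h2 k l hkl) fun k _ => hm _ (h1 k).1
  refine ⟨n, χ, hbound n ⟨χ, h1, h2⟩, h1, h2, h3, hord, ?_⟩
  -- the sup norm
  obtain ⟨𝒰, hU⟩ := exists_U
  choose χ' h' hae using fun k => isHecke_hk (h1 k).1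
  have hsup := supK (sysK hU) (T := fun v => (Tr H v : ℂ)) (Nat.cast_nonneg H.rank)
    (fun v => by rw [Complex.norm_real]; exact Tr_le H v) h'
    (fun k l hkl h => h2 k l hkl (((hae k).symm.trans h).trans (hae l)))
    (m := fun k => m (χ k)) (fun χ₀ hχ₀ => by
      constructor
      · intro k hk
        exact order_mean H hχ₀ (hk.trans (hae k)) (hm _ (h1 k).1) hU
      · intro hk
        obtain ⟨χ₁, hχ₁, hae₁⟩ := hk_isHecke hχ₀
        have h5 := order_mean H hχ₀ hae₁.symm (hm _ hχ₁) hU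
        have h6 : m χ₁ = 0 := by
          by_contra hne
          obtain ⟨k, hk'⟩ := h3 χ₁ hχ₁ hne
          exact hk k ((hae₁.symm.trans hk').trans (hae k).symm)
        rw [h6] at h5
        exact h5.congr (fun _ => rfl) (by simp))
  constructor
  · have h4 := hsup.1
    have h5 : ((|∑ k, m (χ k)| : ℤ) : ℝ) ≤ ((H.rank : ℤ) : ℝ) := by
      push_cast at h4 ⊢
      exact h4
    exact_mod_cast h5
  · have h4 : ∀ᶠ v in cofinite, ∀ k, χ' k v = χ k v := by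
      rw [Filter.eventually_all]
      exact hae
    filter_upwards [hsup.2, h4] with v h5 h6
    simp only [h6] at h5
    exact h5

end

end Pool.Agent.HS37.HT
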